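import Pool.Agent.X308.Sy.Main

/-!
# The Bogomolov–Miyaoka–Yau inequality and its asymptotic form
-/

set_option autoImplicit false

namespace Pool.Agent.Results.MP_872606_gt.AsymptoticInequality

open Pool.Agent.X308.Sy

/-- **Theorem.** In a class of four-manifolds in which Euler characteristic and signature can be
multiplied by arbitrarily large `k`, the inequality `3 σ ≤ e` holds for all members if and only if
it holds up to an error `o(|e| + |σ|)`; if it fails, then there are arbitrarily large members with
`3 σ - e ≥ c (|e| + |σ|)` for some `c > 0`. -/
theorem result (C : AmplifiableClass) : (C.Inequality ↔ C.AsymptoticInequality) ∧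
    (¬ C.Inequality ↔ C.ManyCounterexamples) := AmplifiableClass.iff_asymptotic

end Pool.Agent.Results.MP_872606_gt.AsymptoticInequality
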